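import Pool.Agent.PLG.Stmts

/-!
Squad PLG (MP_1fc801_co), row MA2: rotation of the coordinates.
-/

set_option autoImplicit false

namespace Pool.Agent.PLG.H45

open Module

open Classical in
/-- ROW MA2 -/
theorem ma2 (h1 : Ma1Stmt) (h2 : RotStmt) : Ma2Stmt := by
  intro d K
  obtain ⟨ε, c, A, hε, hc, H⟩ := h1 d K
  refine ⟨ε, c, A, hε, hc, ?_⟩
  intro E _ _ f G P p₀ hD hfin hrk hP hPb hcnt hnd
  obtain ⟨ω, hω, hrot⟩ := h2 (bl f G 4)
  have hω0 : ω ≠ 0 := by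
    rintro rfl
    simp at hω
  have hinv : ∀ x, ω⁻¹ * (ω * x) = x := fun x => inv_mul_cancel_left₀ hω0 x
  have hinv' : ∀ x, ω * (ω⁻¹ * x) = x := fun x => mul_inv_cancel_left₀ hω0 x
  have hmem' : ∀ x, x ∈ G.map (AddMonoidHom.mulLeft ω) ↔ ω⁻¹ * x ∈ G := by
    intro x
    rw [AddSubgroup.mem_map]
    constructor
    · rintro ⟨y, hy, rfl⟩
      rw [AddMonoidHom.coe_mulLeft, hinv]
      exact hy
    · intro hx
      exact ⟨ω⁻¹ * x, hx, by rw [AddMonoidHom.coe_mulLeft, hinv']⟩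
  have hf' : ∀ x, (f.comp (AddMonoidHom.mulLeft ω⁻¹)) x = f (ω⁻¹ * x) := fun x => rfl
  have hD' : Dsc (f.comp (AddMonoidHom.mulLeft ω⁻¹)) (G.map (AddMonoidHom.mulLeft ω)) := by
    intro r
    refine ((hD r).image fun x => ω * x).subset ?_
    rintro x ⟨hx1, hx2⟩
    exact ⟨ω⁻¹ * x, ⟨(hmem' x).1 hx1, hx2⟩, hinv' x⟩
  have hinj : Function.Injective fun x : ℂ => ω * x := mul_right_injective₀ hω0
  have hbl : ∀ r, bl (f.comp (AddMonoidHom.mulLeft ω⁻¹)) (G.map (AddMonoidHom.mulLeft ω)) r =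
      (bl f G r).map ⟨fun x => ω * x, hinj⟩ := by
    intro r
    ext x
    rw [mem_bl hD', Finset.mem_map, hmem', hf']
    constructor
    · rintro ⟨hx1, hx2⟩
      exact ⟨ω⁻¹ * x, (mem_bl hD).2 ⟨hx1, hx2⟩, hinv' x⟩
    · rintro ⟨y, hy, rfl⟩
      have hy' := (mem_bl hD).1 hy
      change ω⁻¹ * (ω * y) ∈ G ∧ ‖f (ω⁻¹ * (ω * y))‖ ≤ r
      rw [hinv]
      exact hy'
  have hcnt' : ∀ r, cnt (f.comp (AddMonoidHom.mulLeft ω⁻¹)) (G.map (AddMonoidHom.mulLeft ω)) r =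
      cnt f G r := by
    intro r
    unfold cnt
    rw [hbl, Finset.card_map]
  have hsp : sp (G.map (AddMonoidHom.mulLeft ω)) = (sp G).map (LinearMap.mulLeft ℚ ω) := by
    unfold sp
    rw [Submodule.map_span, AddSubgroup.coe_map]
    rfl
  have hcP : (P.map ⟨fun x => ω * x, hinj⟩).card = P.card := Finset.card_map _
  have hnd' : nd (P.map ⟨fun x => ω * x, hinj⟩) = nd P := by
    unfold nd
    congr 1
    ext r
    simp only [Finset.mem_image, Finset.mem_product, Finset.mem_map, Function.Embedding.coeFn_mk,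
      Prod.exists]
    have hdist : ∀ a b : ℂ, ‖ω * a - ω * b‖ = ‖a - b‖ := by
      intro a b
      rw [← mul_sub, norm_mul, hω, one_mul]
    constructor
    · rintro ⟨_, _, ⟨⟨a, ha, rfl⟩, ⟨b, hb, rfl⟩⟩, rfl⟩
      exact ⟨a, b, ⟨ha, hb⟩, (hdist a b).symm⟩
    · rintro ⟨a, b, ⟨ha, hb⟩, rfl⟩
      exact ⟨ω * a, ω * b, ⟨⟨a, ha, rfl⟩, ⟨b, hb, rfl⟩⟩, hdist a b⟩
  have hfin' : FiniteDimensional ℚ (sp (G.map (AddMonoidHom.mulLeft ω))) := by
    rw [hsp]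
    infer_instance
  have hR := H E (f.comp (AddMonoidHom.mulLeft ω⁻¹)) (G.map (AddMonoidHom.mulLeft ω))
    (P.map ⟨fun x => ω * x, hinj⟩) (ω * p₀) hD' hfin' ?_ ?_ ?_ ?_ ?_ ?_
  · obtain ⟨z, hz, p', hp', hle⟩ := hR
    obtain ⟨p, hp, rfl⟩ := Finset.mem_map.1 hp'
    refine ⟨ω⁻¹ * z, mul_ne_zero (inv_ne_zero hω0) hz, p, hp, ?_⟩
    rw [hcP, Finset.filter_map, Finset.card_map] at hle
    refine hle.trans_eq ?_
    congr 3
    refine Finset.filter_congr ?_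
    intro q _
    simp only [Function.comp_apply, Function.Embedding.coeFn_mk]
    rw [mem_lin, mem_lin]
    constructor
    · rintro ⟨r, hr⟩
      refine ⟨r, ?_⟩
      rw [← hinv (q - p), mul_sub, hr]
      ring
    · rintro ⟨r, hr⟩
      refine ⟨r, ?_⟩
      rw [← mul_sub, hr]
      calc ω * ((r : ℂ) * (ω⁻¹ * z)) = r * (ω * (ω⁻¹ * z)) := by ring
        _ = r * z := by rw [hinv']
  · rw [hsp]
    exact (Submodule.finrank_map_le _ _).trans hrk
  · intro u hu h0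
    rw [hbl, Finset.mem_map] at hu
    obtain ⟨y, hy, rfl⟩ := hu
    by_contra hne
    exact hrot y hy (fun hy0 => hne (by simp [hy0])) h0
  · exact hP.map
  · intro p' hp'
    obtain ⟨p, hp, rfl⟩ := Finset.mem_map.1 hp'
    rw [hbl, Finset.mem_map]
    exact ⟨p - p₀, hPb p hp, mul_sub _ _ _⟩
  · rw [hcnt', hcP]
    exact hcnt
  · rw [hnd', hcP]
    exact hnd

end Pool.Agent.PLG.H45
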